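import Pool.Agent.Helper11.TZ.T3

/-! Velocity relation of the top polynomial: over the base of the top polynomial the velocity in the top direction is a
function of the other velocities and of the point, up to the level `min (η - c) (1 - η)`. -/

set_option autoImplicit false

namespace Pool.Agent.Helper24.SA

open Finset Filter Topology Matrix MvPolynomial Pool.Agent.Helper69.RK Pool.Agent.Helper31.EC Pool.Agent.Helper40.EL
open Pool.Agent.Helper89.LX Pool.Agent.Helper3.LF Pool.Agent.Helper3.PR Pool.Agent.Helper48.NS Pool.Agent.Helper42.NS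
open Pool.Agent.Helper31.EC.Sp Pool.Agent.Helper60.CS Pool.Agent.Helper47.T4 Pool.Agent.Helper11.TZ

noncomputable section

section fin

variable {N D : ℕ}

/-- derivatives of a polynomial which is bounded on a ball -/
theorem pder_ball (f : MvPolynomial (Fin N) ℝ) (hf : f.totalDegree ≤ D) (j : Fin N) (p y : Fin N → ℝ) {ρ M : ℝ}
    (hρ : 0 < ρ) (hb : ∀ z : Fin N → ℝ, (∀ i, |z i - p i| ≤ 2 * ρ) → |eval z f| ≤ M) (hy : ∀ i, |y i - p i| ≤ ρ) :
    |eval y (pderiv j f)| ≤ Cu D * M / ρ := by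
  classical
  have h1 := uni_affine D (lin y (Pi.single j 1) f) ((natDegree_lin _ _ _).trans hf) 1 0 ρ 1 0 M hρ le_rfl
    (by rw [sub_zero, abs_zero, one_mul]; exact hρ.le) (fun k hk => by
      rw [eval_lin]
      apply hb
      intro i
      have h2 := nod_nonneg D k
      have h3 := nod_le D k hk
      have e1 : y i + (0 + ρ * nod D k) * (Pi.single j (1 : ℝ) : Fin N → ℝ) i - p i =
          (y i - p i) + ρ * nod D k * (Pi.single j (1 : ℝ) : Fin N → ℝ) i := by ring
      rw [e1]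
      refine (abs_add_le _ _).trans ?_
      have h4 : |ρ * nod D k * (Pi.single j (1 : ℝ) : Fin N → ℝ) i| ≤ ρ := by
        rw [abs_mul, abs_of_nonneg (mul_nonneg hρ.le h2)]
        have h5 : |(Pi.single j (1 : ℝ) : Fin N → ℝ) i| ≤ 1 := by
          by_cases hij : i = j
          · rw [hij, Pi.single_eq_same, abs_one]
          · rw [Pi.single_eq_of_ne hij, abs_zero]; exact zero_le_one
        have h6 : ρ * nod D k ≤ ρ := by
          have := mul_le_mul_of_nonneg_left h3 hρ.le
          linarith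
        have h7 := mul_le_mul h6 h5 (abs_nonneg _) hρ.le
        linarith
      have := hy i
      linarith)
  rw [pow_one, one_pow, mul_one, Function.iterate_one, deriv_lin, Polynomial.eval_finsetSum] at h1
  have e2 : ∑ k, (Polynomial.C ((Pi.single j (1 : ℝ) : Fin N → ℝ) k) * lin y (Pi.single j 1) (pderiv k f)).eval 0 =
      eval y (pderiv j f) := by
    rw [Finset.sum_eq_single j]
    · rw [Pi.single_eq_same, Polynomial.eval_mul, Polynomial.eval_C, one_mul, eval_lin]
      congr 2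
      funext k
      rw [zero_mul, add_zero]
    · intro k _ hk
      rw [Pi.single_eq_of_ne hk, Polynomial.eval_mul, Polynomial.eval_C, zero_mul]
    · intro h
      exact absurd (Finset.mem_univ j) h
  rw [e2] at h1
  rw [le_div_iff₀ hρ]
  linarith

/-- derivatives of a polynomial which is bounded on a ball are Lipschitz -/
theorem pder_lip (f : MvPolynomial (Fin N) ℝ) (hf : f.totalDegree ≤ D) (j : Fin N) (p y : Fin N → ℝ) {ρ M δ : ℝ}
    (hρ : 0 < ρ) (hM : 0 ≤ M) (hb : ∀ z : Fin N → ℝ, (∀ i, |z i - p i| ≤ 2 * ρ) → |eval z f| ≤ M) (hδ : 0 ≤ δ)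
    (hδρ : δ ≤ ρ) (hy : ∀ i, |y i - p i| ≤ δ) :
    |eval y (pderiv j f) - eval p (pderiv j f)| ≤ Cu D * (Cu D * M / ρ) * (δ / ρ) := by
  obtain ⟨c, hc⟩ := exists_pol (D := D) (pderiv j f) ((tdeg_pderiv j f D (hf.trans (Nat.le_succ D))))
  have hCu := Cu_one D
  have h1 := pol_lip c p y (ρ := ρ) (M := Cu D * M / ρ) (d := δ) hρ (by positivity) hδ hδρ (fun z hz => by
    rw [← hc]
    exact pder_ball f hf j p z hρ hb hz) hy
  rw [← hc] at h1
  exact h1

/-- the derivative along the line -/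
theorem line_der {m : ℕ} (f : MvPolynomial (Fin (m + 1)) ℝ) (hf : f.totalDegree ≤ D) (a x : Fin m → ℝ) (t : ℝ)
    {w M : ℝ} (hw : 0 < w) (h : ∀ r, |r - t| ≤ w → |eval (pl a x r) f| ≤ M) :
    |eval (pl a x t) (pderiv 0 f) + ∑ j, x j * eval (pl a x t) (pderiv j.succ f)| ≤ Cu D * M / w := by
  have hfe : ∀ s : ℝ, (lin (Fin.cons 0 a : Fin (m + 1) → ℝ) (Fin.cons 1 x : Fin (m + 1) → ℝ) f).eval s =
      eval (pl a x s) f := by
    intro s
    rw [eval_lin, pl_line]
  have h1 := uni_affine D (lin (Fin.cons 0 a : Fin (m + 1) → ℝ) (Fin.cons 1 x : Fin (m + 1) → ℝ) f)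
    ((natDegree_lin _ _ _).trans hf) 1 t w 1 t M hw le_rfl
    (by rw [sub_self, abs_zero, one_mul]; exact hw.le) (fun k hk => by
      rw [hfe]
      apply h
      have h2 := nod_nonneg D k
      have h3 := nod_le D k hk
      have e1 : t + w * nod D k - t = w * nod D k := by ring
      rw [e1, abs_of_nonneg (mul_nonneg hw.le h2)]
      have := mul_le_mul_of_nonneg_left h3 hw.le
      linarith)
  rw [pow_one, one_pow, mul_one, Function.iterate_one, deriv_lin, Polynomial.eval_finsetSum] at h1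
  have e2 : ∑ k, (Polynomial.C ((Fin.cons 1 x : Fin (m + 1) → ℝ) k) *
      lin (Fin.cons 0 a : Fin (m + 1) → ℝ) (Fin.cons 1 x : Fin (m + 1) → ℝ) (pderiv k f)).eval t =
      eval (pl a x t) (pderiv 0 f) + ∑ j, x j * eval (pl a x t) (pderiv j.succ f) := by
    rw [Fin.sum_univ_succ]
    congr 1
    · rw [Fin.cons_zero, Polynomial.eval_mul, Polynomial.eval_C, one_mul, eval_lin, pl_line]
    · refine Finset.sum_congr rfl fun j _ => ?_
      rw [Fin.cons_succ, Polynomial.eval_mul, Polynomial.eval_C, eval_lin, pl_line]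
  rw [e2] at h1
  rw [le_div_iff₀ hw]
  linarith

/-- THE VELOCITY RELATION, pointwise -/
theorem vel_fin {m : ℕ} (f : MvPolynomial (Fin (m + 1)) ℝ) (hf : f.totalDegree ≤ D) (a x a' x' : Fin m → ℝ)
    (t t' : ℝ) {w ρ δ ε M X : ℝ} (hw : 0 < w) (hρ : 0 < ρ) (hδ : 0 ≤ δ) (hδρ : δ ≤ ρ) (hε : 0 ≤ ε) (hM : 0 ≤ M)
    (hX0 : 0 ≤ X) (hX : ∀ j, |x' j| ≤ X) (h : ∀ r, |r - t| ≤ w → |eval (pl a x r) f| ≤ M)
    (h' : ∀ r, |r - t'| ≤ w → |eval (pl a' x' r) f| ≤ M)
    (hb : ∀ z, (∀ i, |z i - pl a x t i| ≤ 2 * ρ) → |eval z f| ≤ M)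
    (hp : ∀ i, |pl a' x' t' i - pl a x t i| ≤ δ) (i0 : Fin m) (hx : ∀ j, j ≠ i0 → |x j - x' j| ≤ ε) :
    |x i0 - x' i0| * |eval (pl a x t) (pderiv i0.succ f)| ≤ 2 * (Cu D * M / w) + m * (ε * (Cu D * M / ρ)) +
      (1 + m * X) * (Cu D * (Cu D * M / ρ) * (δ / ρ)) := by
  classical
  have hCu := Cu_one D
  have g1 := line_der f hf a x t hw h
  have g2 := line_der f hf a' x' t' hw h'
  obtain ⟨p, hpdef⟩ : ∃ p, p = pl a x t := ⟨_, rfl⟩
  obtain ⟨p', hpdef'⟩ : ∃ p', p' = pl a' x' t' := ⟨_, rfl⟩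
  rw [← hpdef] at g1 hb hp ⊢
  rw [← hpdef'] at g2 hp
  have d1 : ∀ j, |eval p (pderiv j f)| ≤ Cu D * M / ρ := fun j =>
    pder_ball f hf j p p hρ hb fun i => by rw [sub_self, abs_zero]; exact hρ.le
  have d2 : ∀ j, |eval p' (pderiv j f) - eval p (pderiv j f)| ≤ Cu D * (Cu D * M / ρ) * (δ / ρ) := fun j =>
    pder_lip f hf j p p' hρ hM hb hδ hδρ hp
  have hid : (x i0 - x' i0) * eval p (pderiv i0.succ f) =
      (eval p (pderiv 0 f) + ∑ j, x j * eval p (pderiv j.succ f)) -
      (eval p' (pderiv 0 f) + ∑ j, x' j * eval p' (pderiv j.succ f)) -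
      ∑ j ∈ Finset.univ.erase i0, (x j - x' j) * eval p (pderiv j.succ f) +
      (eval p' (pderiv 0 f) - eval p (pderiv 0 f)) +
      ∑ j, x' j * (eval p' (pderiv j.succ f) - eval p (pderiv j.succ f)) := by
    have e1 : ∑ j, (x j - x' j) * eval p (pderiv j.succ f) = (x i0 - x' i0) * eval p (pderiv i0.succ f) +
        ∑ j ∈ Finset.univ.erase i0, (x j - x' j) * eval p (pderiv j.succ f) :=
      (Finset.add_sum_erase _ _ (Finset.mem_univ i0)).symm
    have e2 : ∑ j, (x j - x' j) * eval p (pderiv j.succ f) = ∑ j, x j * eval p (pderiv j.succ f) -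
        ∑ j, x' j * eval p (pderiv j.succ f) := by
      rw [← Finset.sum_sub_distrib]
      exact Finset.sum_congr rfl fun j _ => by ring
    have e3 : ∑ j, x' j * (eval p' (pderiv j.succ f) - eval p (pderiv j.succ f)) =
        ∑ j, x' j * eval p' (pderiv j.succ f) - ∑ j, x' j * eval p (pderiv j.succ f) := by
      rw [← Finset.sum_sub_distrib]
      exact Finset.sum_congr rfl fun j _ => by ring
    linarith
  have b3 : |∑ j ∈ Finset.univ.erase i0, (x j - x' j) * eval p (pderiv j.succ f)| ≤ m * (ε * (Cu D * M / ρ)) := by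
    refine (Finset.abs_sum_le_sum_abs _ _).trans ?_
    refine (Finset.sum_le_card_nsmul _ _ (ε * (Cu D * M / ρ)) fun j hj => ?_).trans ?_
    · rw [abs_mul]
      exact mul_le_mul (hx j (Finset.ne_of_mem_erase hj)) (d1 j.succ) (abs_nonneg _) hε
    · rw [nsmul_eq_mul]
      apply mul_le_mul_of_nonneg_right _ (by positivity)
      have h3 : (Finset.univ.erase i0).card ≤ m := by
        refine (Finset.card_le_univ _).trans ?_
        rw [Fintype.card_fin]
      exact_mod_cast h3
  have b5 : |∑ j, x' j * (eval p' (pderiv j.succ f) - eval p (pderiv j.succ f))| ≤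
      m * (X * (Cu D * (Cu D * M / ρ) * (δ / ρ))) := by
    refine (Finset.abs_sum_le_sum_abs _ _).trans ?_
    refine (Finset.sum_le_card_nsmul _ _ (X * (Cu D * (Cu D * M / ρ) * (δ / ρ))) fun j _ => ?_).trans ?_
    · rw [abs_mul]
      exact mul_le_mul (hX j) (d2 j.succ) (abs_nonneg _) hX0
    · rw [nsmul_eq_mul, Finset.card_univ, Fintype.card_fin]
  have b4 := d2 0
  rw [← abs_mul, hid]
  have key : ∀ A B C E F : ℝ, |A - B - C + E + F| ≤ |A| + |B| + |C| + |E| + |F| := by
    intro A B C E F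
    have h1 := abs_add_le (A - B - C + E) F
    have h2 := abs_add_le (A - B - C) E
    have h3 := abs_sub (A - B) C
    have h4 := abs_sub A B
    linarith
  refine (key _ _ _ _ _).trans ?_
  have e6 : (1 + m * X) * (Cu D * (Cu D * M / ρ) * (δ / ρ)) = Cu D * (Cu D * M / ρ) * (δ / ρ) +
      m * (X * (Cu D * (Cu D * M / ρ) * (δ / ρ))) := by ring
  rw [e6]
  linarith

end fin

section top

variable {U : Sp} {m D : ℕ} {s : Sys U m} {Z : ∀ k, Setoid (U.F k).Ω} {c η : ℝ}
  {q : ∀ k, (U.F k).Ω → Mon (m + 1) D → ℝ} {i0 : Fin m}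

theorem eval_dir_single (f : MvPolynomial (Fin (m + 1)) ℝ) (i0 : Fin m) (p : Fin (m + 1) → ℝ) :
    eval p (dir (Pi.single i0 1) f) = eval p (pderiv i0.succ f) := by
  classical
  unfold dir
  rw [map_sum, Finset.sum_eq_single i0]
  · rw [Pi.single_eq_same, map_mul, eval_C, one_mul]
  · intro k _ hk
    rw [Pi.single_eq_of_ne hk, map_mul, eval_C, zero_mul]
  · intro h
    exact absurd (Finset.mem_univ i0) h

/-- the velocities except the one of the coordinate `i0` -/
def othx (s : Sys U m) (i0 : Fin m) (r : ℝ) : U.L :=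
  ((Finset.univ : Finset (Fin m)).filter (fun j => j ≠ i0)).sup fun j => TR.dg (TR.cor s.x j) r

/-- THE VELOCITY RELATION: over the base of the top polynomial all velocities to the level `r` are known from the point
and the velocities of the other coordinates to the level `r`, `r ≤ η - c`, `r ≤ 1 - η` -/
theorem top_vel (hq : Top s Z D c η (fun _ => Pi.single i0 1) q) {r : ℝ} (h0 : 0 ≤ r) (h1 : r ≤ η - c)
    (h2 : r ≤ 1 - η) (e : ℝ) (he : 0 < e) :
    chgL Z e he (s.x.dg r) ≤ chgL Z e he (othx s i0 r ⊔ lB s) := by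
  classical
  obtain ⟨K1, hK1, hT1⟩ := hq.bd (fun _ => 2) (U.Sub_const (by norm_num))
  obtain ⟨K2, hK2, hT2⟩ := hq.der
  obtain ⟨X, hX, hXb⟩ := s.x.bd
  have hCu := Cu_one D
  have e0 : ∀ {n : ℕ} (v : U.VV n) (u : ℝ), chgL Z e he (v.dg u) = (v.chg Z e he).dg (u / e) := by
    intro n v u
    rw [VV.chg_dg]
    congr 2
    field_simp
  have e1 : ∀ (u : ℝ) k, (U.chg Z e he).dl (u / e) k = U.dl u k := by
    intro u k
    rw [chg_dl]
    congr 1
    field_simp
  -- the other velocities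
  obtain ⟨w, hw⟩ : ∃ w : Fin m → TR U, w = fun j => if j = i0 then 0 else TR.cor s.x j := ⟨_, rfl⟩
  have hw1 : (TR.vec w).dg r ≤ othx s i0 r := by
    apply TR.vec_dg_le
    intro j
    rw [hw]
    by_cases hj : j = i0
    · show TR.dg (if j = i0 then 0 else TR.cor s.x j) r ≤ _
      rw [if_pos hj, TR.const_dg (0 : TR U) (Eventually.of_forall fun _ _ _ => rfl)]
      exact bot_le
    · show TR.dg (if j = i0 then 0 else TR.cor s.x j) r ≤ _
      rw [if_neg hj]
      exact Finset.le_sup (f := fun j => TR.dg (TR.cor s.x j) r) (Finset.mem_filter.mpr ⟨Finset.mem_univ j, hj⟩)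
  have key : chgL Z e he (s.x.dg r) ≤ chgL Z e he (((TR.vec w).dg r ⊔ s.P.dg 1) ⊔ s.t.dg 1) := by
    rw [chgL_sup, chgL_sup, e0, e0, e0, e0]
    apply VV.dg_le_dg3 (S := U.chg Z e he) _ _ _ _ _ _ _ _ _ (typ_chg Z e he (typ_and hT1 hT2))
      (fun k => 1 + K2 k * (2 * (Cu D * K1 k) + m * (Cu D * K1 k) + (1 + m * X k) * (Cu D * (Cu D * K1 k))))
      (chg_sub Z e he ((U.Sub_const zero_le_one).add (hK2.mul ((((U.Sub_const (by norm_num)).mul
        ((U.Sub_const (by linarith)).mul hK1)).add ((U.Sub_const (Nat.cast_nonneg m)).mul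
        ((U.Sub_const (by linarith)).mul hK1))).add (((U.Sub_const zero_le_one).add
        ((U.Sub_const (Nat.cast_nonneg m)).mul hX)).mul ((U.Sub_const (by linarith)).mul
        ((U.Sub_const (by linarith)).mul hK1)))))))
    filter_upwards [hq.meas, hK1.1, hK2.1, hX.1, hXb] with k hm hK0 hK20 hX0 hXk ω ω' a a' g g' hZU h2' h3 h4 i
    rw [e1] at h2' h3 h4 ⊢
    obtain ⟨g1, g2⟩ := g
    obtain ⟨g1', _⟩ := g'
    have hρ := U.dl_pos η k
    have hwp := U.dl_pos c k
    have hdr := U.dl_pos r k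
    have hd1 := U.dl_pos 1 k
    have hx : ∀ j, j ≠ i0 → |s.x.v k ω j - s.x.v k ω' j| ≤ U.dl r k := by
      intro j hj
      have h5 := h2' j
      have e3 : ∀ ω : (U.F k).Ω, (TR.vec w).v k ω j = s.x.v k ω j := by
        intro ω
        show TR.ev (w j) k ω = _
        rw [hw]
        show TR.ev (if j = i0 then 0 else TR.cor s.x j) k ω = _
        rw [if_neg hj]
        rfl
      have h6 : |(TR.vec w).v k ω j - (TR.vec w).v k ω' j| ≤ U.dl r k := h5
      have h7 : (TR.vec w).v k ω j - (TR.vec w).v k ω' j = s.x.v k ω j - s.x.v k ω' j :=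
        congrArg₂ (fun a b : ℝ => a - b) (e3 ω) (e3 ω')
      rw [← h7]
      exact h6
    have hP0 : 0 ≤ K2 k * (2 * (Cu D * K1 k) + m * (Cu D * K1 k) + (1 + m * X k) * (Cu D * (Cu D * K1 k))) := by
      positivity
    by_cases hi : i = i0
    · rw [hi]
      have hqq := hm ω ω' a a' hZU.1 hZU.2
      have hpp : ∀ j, |pl (s.a.v k ω') (s.x.v k ω') (s.t.v k ω' 0) j - pl (s.a.v k ω) (s.x.v k ω) (s.t.v k ω 0) j| ≤
          U.dl 1 k := by
        intro j
        rw [abs_sub_comm]
        refine Fin.cases ?_ (fun j => ?_) j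
        · exact h4 0
        · exact h3 j
      have hself : ∀ (r : ℝ) (y : Fin (m + 1) → ℝ) (j : Fin (m + 1)), |y j - y j| ≤ 2 * U.dl η k := by
        intro r y j
        rw [sub_self, abs_zero]
        linarith
      have hwin : ∀ r t : ℝ, |r - t| ≤ U.dl c k → |r - t| ≤ 2 * U.dl c k := fun r t h => by linarith
      have h7 := vel_fin (pol (q k ω)) (pol_deg _) (s.a.v k ω) (s.x.v k ω) (s.a.v k ω') (s.x.v k ω') (s.t.v k ω 0)
        (s.t.v k ω' 0) (w := U.dl c k) (ρ := U.dl η k) (δ := U.dl 1 k) (ε := U.dl r k) (M := K1 k) (X := X k)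
        hwp hρ hd1.le (U.dl_anti (by linarith) k) hdr.le hK0 hX0 (fun j => hXk ω' a' j)
        (fun r hr => g1 r (hwin _ _ hr) _ (hself r _))
        (fun r hr => by
          rw [hqq]
          exact g1' r (hwin _ _ hr) _ (hself r _))
        (fun z hz => g1 (s.t.v k ω 0) (by
          rw [sub_self, abs_zero]
          positivity) z hz) hpp i0 hx
      rw [eval_dir_single] at g2
      have g2' : 1 ≤ K2 k * (U.dl η k * |eval (pl (s.a.v k ω) (s.x.v k ω) (s.t.v k ω 0))
        (pderiv i0.succ (pol (q k ω)))|) := g2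
      obtain ⟨B, hB⟩ : ∃ B, B = |eval (pl (s.a.v k ω) (s.x.v k ω) (s.t.v k ω 0)) (pderiv i0.succ (pol (q k ω)))| :=
        ⟨_, rfl⟩
      rw [← hB] at h7 g2'
      have hx0 := abs_nonneg (s.x.v k ω i0 - s.x.v k ω' i0)
      have h8 : |s.x.v k ω i0 - s.x.v k ω' i0| ≤ K2 k * (U.dl η k * (|s.x.v k ω i0 - s.x.v k ω' i0| * B)) := by
        calc |s.x.v k ω i0 - s.x.v k ω' i0| = |s.x.v k ω i0 - s.x.v k ω' i0| * 1 := (mul_one _).symm
          _ ≤ |s.x.v k ω i0 - s.x.v k ω' i0| * (K2 k * (U.dl η k * B)) := mul_le_mul_of_nonneg_left g2' hx0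
          _ = _ := by ring
      have d1 : U.dl η k ≤ U.dl c k * U.dl r k := by
        rw [← U.dl_add]
        exact U.dl_anti (by linarith) k
      have d2 : U.dl 1 k ≤ U.dl η k * U.dl r k := by
        rw [← U.dl_add]
        exact U.dl_anti (by linarith) k
      have hM0 : 0 ≤ Cu D * K1 k := by positivity
      have h9 : U.dl η k * (2 * (Cu D * K1 k / U.dl c k) + m * (U.dl r k * (Cu D * K1 k / U.dl η k)) +
          (1 + m * X k) * (Cu D * (Cu D * K1 k / U.dl η k) * (U.dl 1 k / U.dl η k))) ≤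
          (2 * (Cu D * K1 k) + m * (Cu D * K1 k) + (1 + m * X k) * (Cu D * (Cu D * K1 k))) * U.dl r k := by
        have f1 : U.dl η k * (2 * (Cu D * K1 k / U.dl c k)) ≤ 2 * (Cu D * K1 k) * U.dl r k := by
          have h10 : U.dl η k / U.dl c k ≤ U.dl r k := by
            rw [div_le_iff₀ hwp, mul_comm]
            exact d1
          calc U.dl η k * (2 * (Cu D * K1 k / U.dl c k)) = 2 * (Cu D * K1 k) * (U.dl η k / U.dl c k) := by ring
            _ ≤ _ := mul_le_mul_of_nonneg_left h10 (by positivity)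
        have f2 : U.dl η k * (m * (U.dl r k * (Cu D * K1 k / U.dl η k))) = m * (Cu D * K1 k) * U.dl r k := by
          field_simp
        have f3 : U.dl η k * ((1 + m * X k) * (Cu D * (Cu D * K1 k / U.dl η k) * (U.dl 1 k / U.dl η k))) ≤
            (1 + m * X k) * (Cu D * (Cu D * K1 k)) * U.dl r k := by
          have h10 : U.dl 1 k / U.dl η k ≤ U.dl r k := by
            rw [div_le_iff₀ hρ, mul_comm]
            exact d2
          calc U.dl η k * ((1 + m * X k) * (Cu D * (Cu D * K1 k / U.dl η k) * (U.dl 1 k / U.dl η k)))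
              = (1 + m * X k) * (Cu D * (Cu D * K1 k)) * (U.dl 1 k / U.dl η k) := by
                field_simp
            _ ≤ _ := mul_le_mul_of_nonneg_left h10 (by positivity)
        rw [mul_add, mul_add, f2, add_mul, add_mul]
        linarith
      have h10 : K2 k * (U.dl η k * (|s.x.v k ω i0 - s.x.v k ω' i0| * B)) ≤
          K2 k * ((2 * (Cu D * K1 k) + m * (Cu D * K1 k) + (1 + m * X k) * (Cu D * (Cu D * K1 k))) * U.dl r k) := by
        apply mul_le_mul_of_nonneg_left _ hK20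
        exact (mul_le_mul_of_nonneg_left h7 hρ.le).trans h9
      show |s.x.v k ω i0 - s.x.v k ω' i0| ≤ _
      refine (h8.trans h10).trans ?_
      obtain ⟨Q, hQ⟩ : ∃ Q, Q = 2 * (Cu D * K1 k) + m * (Cu D * K1 k) + (1 + m * X k) * (Cu D * (Cu D * K1 k)) :=
        ⟨_, rfl⟩
      rw [← hQ, ← mul_assoc, add_mul (1 : ℝ), one_mul]
      linarith
    · show |s.x.v k ω i - s.x.v k ω' i| ≤ _
      refine (hx i hi).trans ?_
      rw [add_mul, one_mul]
      linarith [mul_nonneg hP0 hdr.le]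
  refine key.trans (chgL_mono Z e he ?_)
  rw [sup_assoc]
  exact sup_le_sup hw1 le_rfl

end top

end

end Pool.Agent.Helper24.SA
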