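import Pool.Agent.Helper24.SA.Sta
import Pool.Agent.Helper24.SA.Vel
import Pool.Agent.Helper47.CA.Tp
import Pool.Agent.Helper80.HCI.Ov

/-! The field `st` of the corner of case A in the box: richness of the directions from the velocity relation. -/

set_option autoImplicit false

namespace Pool.Agent.Helper24.SA

open Finset Filter Topology Matrix MvPolynomial Pool.Agent.Helper69.RK Pool.Agent.Helper31.EC
open Pool.Agent.Helper31.EC.Sp Pool.Agent.Helper40.EL Pool.Agent.Helper24.T3 Pool.Agent.Helper25.EC QS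
open Pool.Agent.Helper60.CS Pool.Agent.Helper98.FR Pool.Agent.Helper47.T4 Pool.Agent.Helper11.TZ
open Pool.Agent.Helper40.NSK Pool.Agent.Helper99.EC Pool.Agent.Helper99.CC Pool.Agent.Helper99.LF
open Pool.Agent.Helper89.LX Pool.Agent.Helper3.LF Pool.Agent.Helper3.PR Pool.Agent.Helper42.NS
open Pool.Agent.Helper47.CA Pool.Agent.Helper80.HCI

noncomputable section

/-! ### the entropies of the point and of the directions -/

section bk

variable {S : Sp} {k : ℕ} {D : ND S 2 k} {Z1 Z3 : ∀ k, Setoid (S.F k).Ω} {L0 M0 M L2 X2 Y2 Lx : S.L} {ρ ε P : ℝ}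

theorem bk_T (_B : Bk D Z1 Z3 L0 M0 M L2 X2 Y2 Lx ρ ε P) :
    QS.dg (Pool.Agent.Helper99.LF.fc D.cd.tr).t 1 = chgL D.Z' D.e D.he (T2 D) := by
  show QS.dg (QS.mk D.cd.t) 1 = _
  rw [QS.dg_mk _ le_rfl]
  exact D.t_dg 1

theorem bk_B (B : Bk D Z1 Z3 L0 M0 M L2 X2 Y2 Lx ρ ε P) : vd (Pool.Agent.Helper99.LF.fc D.cd.tr).fB 1 =
    chgL D.Z' D.e D.he (Y2 ⊔ TR.dg D.ζ (D.e * (D.σ + D.v)) ⊔ T2 D) := by
  have hz : QS.dg (Pool.Agent.Helper99.LF.fc D.cd.tr).z 1 = chgL D.Z' D.e D.he (TR.dg D.ζ (D.e * (D.σ + D.v))) := by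
    rw [D.z_dg le_rfl]
    congr 3
    ring
  rw [chgL_sup, chgL_sup, ← B.rY, ← bk_T B, ← hz]
  apply le_antisymm
  · rw [vd_le]
    rintro (i | i)
    · induction i using Fin.cases with
      | zero => exact le_sup_right
      | succ i =>
        refine le_trans ?_ le_sup_left
        refine le_trans ?_ le_sup_left
        exact dg_le_vd (Pool.Agent.Helper99.LF.fc D.cd.tr).y 1 i
    · exact le_trans le_sup_right le_sup_left
  · refine _root_.sup_le (_root_.sup_le ?_ ?_) ?_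
    · rw [vd_le]
      intro i
      exact dg_le_vd (Pool.Agent.Helper99.LF.fc D.cd.tr).fB 1 (Sum.inl i.succ)
    · exact dg_le_vd (Pool.Agent.Helper99.LF.fc D.cd.tr).fB 1 (Sum.inr ())
    · exact dg_le_vd (Pool.Agent.Helper99.LF.fc D.cd.tr).fB 1 (Sum.inl 0)

theorem bk_t1 (B : Bk D Z1 Z3 L0 M0 M L2 X2 Y2 Lx ρ ε P) :
    1 ≤ h (chgL D.Z' D.e D.he (T2 D)) (Pool.Agent.Helper99.LF.fc D.cd.tr).iL := by
  rw [B.rL, h_unit, le_div_iff₀ D.he, one_mul]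
  exact B.t2.trans (h_anti B.l2)

theorem bk_T1 (B : Bk D Z1 Z3 L0 M0 M L2 X2 Y2 Lx ρ ε P) : H (chgL D.Z' D.e D.he (T2 D)) ≤ 1 := by
  rw [← bk_T B]
  have h1 := H_dg_le (Pool.Agent.Helper99.LF.fc D.cd.tr).t (r := 1) zero_le_one
  exact h1

/-- the direction is independent of the point -/
theorem bk_ind (B : Bk D Z1 Z3 L0 M0 M L2 X2 Y2 Lx ρ ε P) :
    I (Pool.Agent.Helper99.LF.fc D.cd.tr).iX (vd (Pool.Agent.Helper99.LF.fc D.cd.tr).fB 1) ⊥ ≤ ε := by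
  have he := D.he
  have h1 := hi_of B.h3 (X := X2) (W := Y2 ⊔ TR.dg D.ζ (D.e * (D.σ + D.v))) (τ := T2 D) (δ := ε * D.e)
    (by
      have e1 : Y2 ⊔ TR.dg D.ζ (D.e * (D.σ + D.v)) ⊔ T2 D = (Y2 ⊔ T2 D) ⊔ TR.dg D.ζ (D.e * (D.σ + D.v)) := by
        rw [sup_right_comm]
      rw [e1, chgL_sup, B.k3, B.z3, sup_bot_eq]) B.r1
  have hX : (Pool.Agent.Helper99.LF.fc D.cd.tr).iX ≤ (Pool.Agent.Helper99.LF.fc D.cd.tr).iL := le_sup_right
  have h2 := (bk_t1 B).trans (h_anti hX)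
  have h3 := bk_T1 B
  rw [bk_B B, chgL_sup]
  have h4 : I (chgL D.Z' D.e D.he X2) (chgL D.Z' D.e D.he (Y2 ⊔ TR.dg D.ζ (D.e * (D.σ + D.v))))
      (chgL D.Z' D.e D.he (T2 D)) ≤ ε := by
    rw [I_eq, ← chgL_sup] at h1 ⊢
    rw [h_unit D.Z' D.he, h_unit D.Z' D.he, ← sub_div, div_le_iff₀ he]
    exact h1
  rw [← B.rX] at h4
  have h5 : I (Pool.Agent.Helper99.LF.fc D.cd.tr).iX (chgL D.Z' D.e D.he (T2 D)) ⊥ ≤ 0 := by
    rw [I_eq', h_bot, sup_bot_eq]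
    linarith
  have h6 : I (Pool.Agent.Helper99.LF.fc D.cd.tr).iX
      (chgL D.Z' D.e D.he (Y2 ⊔ TR.dg D.ζ (D.e * (D.σ + D.v))) ⊔ chgL D.Z' D.e D.he (T2 D)) ⊥ =
      I (Pool.Agent.Helper99.LF.fc D.cd.tr).iX (chgL D.Z' D.e D.he (T2 D)) ⊥ +
      I (Pool.Agent.Helper99.LF.fc D.cd.tr).iX (chgL D.Z' D.e D.he (Y2 ⊔ TR.dg D.ζ (D.e * (D.σ + D.v))))
        (chgL D.Z' D.e D.he (T2 D)) := by
    rw [I_eq, I_eq, I_eq, h_bot, sup_bot_eq, sup_bot_eq]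
    ring
  rw [h6]
  linarith

/-- the base point is full -/
theorem bk_full (B : Bk D Z1 Z3 L0 M0 M L2 X2 Y2 Lx ρ ε P) : 3 ≤ H (Pool.Agent.Helper99.LF.fc D.cd.tr).iQ := by
  have eQ : (Pool.Agent.Helper99.LF.fc D.cd.tr).iQ = chgL D.Z' D.e D.he Y2 ⊔ chgL D.Z' D.e D.he (T2 D) := by
    unfold FC.iQ
    rw [B.rY, bk_T B]
  have h1 := (bk_t1 B).trans (h_le_H _ _)
  have h2 : 2 ≤ h (chgL D.Z' D.e D.he Y2) (chgL D.Z' D.e D.he (T2 D)) := by
    rw [h_unit, le_div_iff₀ D.he]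
    have := B.y2
    push_cast at this
    exact this
  have h3 := h_chain (chgL D.Z' D.e D.he (T2 D)) (chgL D.Z' D.e D.he Y2) ⊥
  rw [h_bot, h_bot, sup_bot_eq] at h3
  rw [eQ, sup_comm, h3]
  linarith

end bk

/-! ### richness of the directions over the label of the window -/

section box

variable {S : Sp} {s : Sys S 3} {q lam eta : ℕ → ℝ} {L : ℕ → Lab S} (b : Bx s q lam eta L)

/-- the digits of the velocities of `y` and `R` are known from the directions of the corner -/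
theorem dir_le (i2 : ℕ) {e : ℝ} (he : 0 < e) {r : ℝ} (hr1 : r ≤ 1) :
    chgL (b.bd.V i2) e he (othx b.sy 2 (e * r)) ≤
      vd (S := b.bd.Sj i2 e he) (fun i => QS.mk (![b.ld.xT i2 e he, b.ld.vrT i2 e he] i)) r := by
  have hq := b.qlam i2
  have e1 : (Finset.univ : Finset (Fin 3)).filter (fun j => j ≠ 2) = {0, 1} := by decide
  have e2 : othx b.sy 2 (e * r) = TR.dg (b.ld.x 0) (e * r) ⊔ TR.dg (b.ld.x 1) (e * r) := by
    unfold othx
    rw [e1, Finset.sup_insert, Finset.sup_singleton]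
    rfl
  have hx0 : chgL (b.bd.V i2) e he (TR.dg (b.ld.x 0) (e * r)) ≤
      vd (S := b.bd.Sj i2 e he) (fun i => QS.mk (![b.ld.xT i2 e he, b.ld.vrT i2 e he] i)) r := by
    have h1 := dg_le_vd (S := b.bd.Sj i2 e he) (fun i => QS.mk (![b.ld.xT i2 e he, b.ld.vrT i2 e he] i)) r 0
    have h2 : QS.dg (QS.mk (b.ld.xT i2 e he)) r = chgL (b.bd.V i2) e he (TR.dg (b.ld.x 0) (e * r)) := by
      rw [QS.dg_mk _ hr1]
      exact trc_dg (b.bd.V i2) e he (b.ld.x 0) r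
    rw [← h2]
    exact h1
  have hv : chgL (b.bd.V i2) e he (TR.dg (b.ld.vr i2) (e * r)) ≤
      vd (S := b.bd.Sj i2 e he) (fun i => QS.mk (![b.ld.xT i2 e he, b.ld.vrT i2 e he] i)) r := by
    have h1 := dg_le_vd (S := b.bd.Sj i2 e he) (fun i => QS.mk (![b.ld.xT i2 e he, b.ld.vrT i2 e he] i)) r 1
    have h2 : QS.dg (QS.mk (b.ld.vrT i2 e he)) r =
        chgL (b.bd.V i2) e he (TR.dg (b.ld.vr i2) (b.bd.lam i2 - b.bd.q i2 + e * r)) := by
      rw [QS.dg_mk _ hr1]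
      exact nf_dg (Z := b.bd.V i2) (e := e) (he := he) (hr := lq1 b.bd i2) (hf := b.ld.vr_mem i2) r
    have h3 : chgL (b.bd.V i2) e he (TR.dg (b.ld.vr i2) (e * r)) ≤
        chgL (b.bd.V i2) e he (TR.dg (b.ld.vr i2) (b.bd.lam i2 - b.bd.q i2 + e * r)) := by
      apply chgL_mono
      apply TR.dg_mono
      have h4 : b.bd.q i2 ≤ b.bd.lam i2 := hq
      linarith
    refine h3.trans ?_
    rw [← h2]
    exact h1
  rw [e2, chgL_sup]
  refine _root_.sup_le hx0 ?_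
  -- `x 1 = vr + (r 1 + r 2 * x 0)`
  have e3 : b.ld.x 1 = b.ld.vr i2 + (b.bd.r i2 1 + b.bd.r i2 2 * b.ld.x 0) := by
    unfold LD.vr
    rw [sub_add_cancel]
  rw [e3]
  have l1 := (b.bd.lr i2 1).chg_bot e he (e * r)
  have l2 := (b.bd.lr i2 2).chg_bot e he (e * r)
  refine (chgL_mono _ _ _ (TR.add_dg_le _ _ _)).trans ?_
  rw [chgL_sup]
  refine _root_.sup_le hv ?_
  refine (chgL_mono _ _ _ (TR.add_dg_le _ _ _)).trans ?_
  rw [chgL_sup, l1, bot_sup_eq]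
  refine (chgL_mono _ _ _ (TR.mul_dg_le _ _ _)).trans ?_
  rw [chgL_sup, l2, bot_sup_eq]
  exact hx0

/-- RICHNESS of the directions of the corner over the label of the window -/
theorem rich_box {g : ℝ} (hr : Pool.Agent.Helper80.MX.Rich s g) (i2 : ℕ) {D : ℕ} {η : ℝ}
    {p : ∀ k, (b.M.sp.F k).Ω → Mon (3 + 1) D → ℝ}
    (hT : Top b.sy (b.bd.V i2) D (q i2) η (fun _ => Pi.single 2 1) p) {e : ℝ} (he : 0 < e) (h1 : e ≤ η - q i2)
    (h2 : e ≤ 1 - η) (he1 : e ≤ 1) {B : (b.bd.Sj i2 e he).L} (hB : B ≤ chgL (b.bd.V i2) e he (lB b.sy)) :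
    RichG (S := b.bd.Sj i2 e he) (fun i => QS.mk (![b.ld.xT i2 e he, b.ld.vrT i2 e he] i)) B g := by
  intro T pr E hE r h0 hr1
  have her : e * r ≤ e := mul_le_of_le_one_right he.le hr1
  have h3 := rich_ovr (b.M.lab i2) (c := e) (hc := he) pr E hE s hr (b.kap i2).1 h0 (her.trans he1)
  have h4 := top_vel hT (mul_nonneg he.le h0) (her.trans h1) (her.trans h2) e he
  have h5 := dir_le b i2 he hr1
  have h6 : chgL (b.bd.V i2) e he (b.sy.x.dg (e * r)) ≤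
      vd (S := b.bd.Sj i2 e he) (fun i => QS.mk (![b.ld.xT i2 e he, b.ld.vrT i2 e he] i)) r ⊔
        chgL (b.bd.V i2) e he (lB b.sy) := by
    refine h4.trans ?_
    rw [chgL_sup]
    exact sup_le_sup h5 le_rfl
  have e1 : (b.M.lab i2).upL e he (s.x.dg (e * r)) = chgL (b.bd.V i2) e he (b.sy.x.dg (e * r)) := by
    have h7 : (famPj b.M).map (s.x.dg (e * r)) = b.sy.x.dg (e * r) := (famPj b.M).map_dg _ _
    show chgL (b.bd.V i2) e he ((famPj b.M).map (s.x.dg (e * r))) = _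
    rw [h7]
  have e2 : (b.M.lab i2).upL e he (lB s) = chgL (b.bd.V i2) e he (lB b.sy) := by
    have h7 : (famPj b.M).map (lB s) = lB b.sy := by
      unfold lB Sys.T
      rw [(famPj b.M).map_sup, (famPj b.M).map_dg, (famPj b.M).map_dg]
      rfl
    show chgL (b.bd.V i2) e he ((famPj b.M).map (lB s)) = _
    rw [h7]
  rw [e1, e2] at h3
  refine h3.trans ?_
  have h8 : restL E hE (pr.map (chgL (b.bd.V i2) e he (b.sy.x.dg (e * r)))) ≤
      restL E hE (pr.map (vd (S := b.bd.Sj i2 e he) (fun i => QS.mk (![b.ld.xT i2 e he, b.ld.vrT i2 e he] i)) r)) ⊔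
        restL E hE (pr.map (chgL (b.bd.V i2) e he (lB b.sy))) := by
    have h9 := restL_mono E hE (pr.map_mono h6)
    rw [pr.map_sup, restL_sup] at h9
    exact h9
  have h10 : restL E hE (pr.map B) ≤ restL E hE (pr.map (chgL (b.bd.V i2) e he (lB b.sy))) :=
    restL_mono E hE (pr.map_mono hB)
  refine le_trans ?_ (h_anti h10)
  obtain ⟨X, hX⟩ : ∃ X, X = restL E hE (pr.map (chgL (b.bd.V i2) e he (b.sy.x.dg (e * r)))) := ⟨_, rfl⟩
  obtain ⟨Y, hY⟩ : ∃ Y, Y = restL E hE (pr.map (vd (S := b.bd.Sj i2 e he)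
    (fun i => QS.mk (![b.ld.xT i2 e he, b.ld.vrT i2 e he] i)) r)) := ⟨_, rfl⟩
  obtain ⟨C, hC⟩ : ∃ C, C = restL E hE (pr.map (chgL (b.bd.V i2) e he (lB b.sy))) := ⟨_, rfl⟩
  rw [← hX, ← hY, ← hC] at h8
  show h (restL E hE (pr.map (chgL (b.bd.V i2) e he (b.sy.x.dg (e * r)))))
    (restL E hE (pr.map (chgL (b.bd.V i2) e he (lB b.sy)))) ≤ _
  rw [← hX, ← hC]
  show h X C ≤ h (restL E hE (pr.map (vd (S := b.bd.Sj i2 e he)
    (fun i => QS.mk (![b.ld.xT i2 e he, b.ld.vrT i2 e he] i)) r))) C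
  rw [← hY]
  have h11 := h_triangle X Y C
  have h12 : h X (Y ⊔ C) = 0 := h_zero h8
  linarith

/-- **THE FIELD `st`** of the corner of case A in the box -/
theorem st_top {i0 i1 i2 i3 k : ℕ} (N : NDB b.ld i0 i2 k) {D D' : ℕ}
    {p : ∀ k, (b.M.sp.F k).Ω → Mon (3 + 1) D → ℝ} {p' : ∀ k, (b.M.sp.F k).Ω → Mon (3 + 1) D' → ℝ} {η η' : ℝ}
    (hT : Top b.sy (b.bd.V i0) D (q i0) η (fun _ => Pi.single 2 1) p)
    (hT' : Top b.sy (b.bd.V i2) D' (q i2) η' (fun _ => Pi.single 2 1) p')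
    (h1 : η + N.e * (N.σ + N.v) ≤ 1) (K : ℕ → ℝ) (hK : b.M.sp.Sub K)
    (hKt : Typ (S := b.M.sp) (fun k ω => |eval (ptf b.sy k ω) (pol (p k ω))| ≤ K k))
    (hζ : TR.Te N.ζ (zt b.sy p K hK)) (hq2 : q i2 + N.e ≤ 1) (hl2 : lam i2 + N.e ≤ 1) {L0 M0 M : b.M.sp.L} {ρ ε P : ℝ}
    (B : Bk N.nd (b.bd.V i1) (b.bd.V i3) L0 M0 M (lineI b.ld i2 N.e) N.X2 N.Y2 b.ld.L ρ ε P) {g : ℝ} (hg : 0 < g)
    (hg1 : g ≤ 1) (hr : Pool.Agent.Helper80.MX.Rich s g) (he1 : N.e ≤ η' - q i2) (he2 : N.e ≤ 1 - η') (hP : 0 < P)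
    (hP1 : P ≤ 1) (hnum : 80 * ε ≤ g * P ^ 2) (n : ℕ) :
    ∃ w : QS.CQ N.nd.U (Pool.Agent.Helper99.LF.fc N.nd.cd.tr).fB n, ∀ f : Fin (2 + 1) → Fin (n + 1),
      Function.Injective f → Big (Matrix.of fun i j =>
        (w.p (f i)).qs ((Pool.Agent.Helper99.LF.fc N.nd.cd.tr).v j)).det P := by
  have he := N.he
  have hσv : 0 ≤ N.σ + N.v := add_nonneg N.hσ N.hv
  have e1 : (b.M.lab i2).upL N.e he (s.xi 1) = chgL (b.bd.V i2) N.e he b.ld.L := rfl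
  have e2 : (b.M.lab i2).upL N.e he (lB s) = chgL (b.bd.V i2) N.e he (lB b.sy) := by
    have h7 : (famPj b.M).map (lB s) = lB b.sy := by
      unfold lB Sys.T
      rw [(famPj b.M).map_sup, (famPj b.M).map_dg, (famPj b.M).map_dg]
      rfl
    show chgL (b.bd.V i2) N.e he ((famPj b.M).map (lB s)) = _
    rw [h7]
  have hA : (Pool.Agent.Helper99.LF.fc N.nd.cd.tr).iL ≤ (b.M.lab i2).upL N.e he (lA s (q i2)) := by
    have h2 : (Pool.Agent.Helper99.LF.fc N.nd.cd.tr).iL ≤ (b.M.lab i2).upL N.e he (s.xi 1) := by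
      rw [B.rL, e1]
      exact (unit_le (b.bd.V i2) he).mpr B.l2
    exact h2.trans ((b.M.lab i2).upL_mono N.e he le_sup_left)
  have hB : vd (Pool.Agent.Helper99.LF.fc N.nd.cd.tr).fB 1 ≤ chgL (b.bd.V i2) N.e he (lB b.sy) := by
    rw [bk_B B]
    have h2 : chgL (b.bd.V i2) N.e he (N.Y2 ⊔ T2 N.nd) ≤ chgL (b.bd.V i2) N.e he (lB b.sy) := by
      rw [N.pt_eq he]
      refine (ptI_le_all b.bd i2 he hq2 hl2).trans (chgL_mono _ _ _ ?_)
      rw [← oth_eq b]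
      unfold oth lB
      refine _root_.sup_le le_sup_right (Finset.sup_le fun j _ => ?_)
      exact (TR.cor_dg_le b.sy.P j 1).trans le_sup_left
    have h3 : chgL (b.bd.V i2) N.e he (TR.dg N.ζ (N.e * (N.σ + N.v))) ≤ chgL (b.bd.V i2) N.e he (lB b.sy) := by
      rw [hζ.dg_eq]
      exact nest_le N.hZ he (Top.dg_le_pt hT K hK hKt (mul_nonneg he.le hσv) h1 N.e he)
    show chgL (b.bd.V i2) N.e he (N.Y2 ⊔ TR.dg N.ζ (N.e * (N.σ + N.v)) ⊔ T2 N.nd) ≤ _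
    rw [sup_right_comm, chgL_sup]
    exact _root_.sup_le h2 h3
  have hrich := rich_box b hr i2 hT' he he1 he2 (by have := b.q0 i2; linarith) hB
  have h8 := bk_full B
  have h9 := bk_ind B
  have h10 : 0 ≤ I (Pool.Agent.Helper99.LF.fc N.nd.cd.tr).iX (vd (Pool.Agent.Helper99.LF.fc N.nd.cd.tr).fB 1) ⊥ :=
    I_nonneg _ _ _
  have h11 : 3 - ε ≤ 3 := by linarith
  exact st_kap s (q i2) (b.kap i2) N.e he N.nd.cd.tr hA (by rw [e2]; exact hB) hrich h9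
    (h11.trans h8) hg hg1 hP hP1 hnum n

end box

end

end Pool.Agent.Helper24.SA
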