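import Pool.Agent.Helper24.AG.Kap
import Pool.Agent.Helper24.T3.St
import Pool.Agent.Helper99.LF.St

/-! The field `st` of `CorH` over a maximal label: the agreement hypothesis of (T3) follows from maximality. -/

set_option autoImplicit false

namespace Pool.Agent.Helper24.SA

open Finset Filter Topology Pool.Agent.Helper69.RK Pool.Agent.Helper31.EC Pool.Agent.Helper31.EC.Sp
open Pool.Agent.Helper25.EC QS Pool.Agent.Helper38.NS Pool.Agent.Helper42.NS Pool.Agent.Helper24.T3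
open Pool.Agent.Helper40.EL Pool.Agent.Helper99.EC Pool.Agent.Helper24.AG Pool.Agent.Helper40.NSK
open Pool.Agent.Helper99.CC Pool.Agent.Helper99.LF

noncomputable section

variable {S : Sp} {m : ℕ}

/-- a literal variable over a label which is known to an information of the space -/
theorem nul_io {l : Lab S} (e : ℝ) (he : 0 < e) {α : ℕ → Type} {V : ∀ k, ((l.ovr e he).F k).Ω → α k}
    (hV : Bdd (S := l.ovr e he) V) (A : S.Inf) (h : io V ≤ l.upL e he (cl A)) :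
    Nul S (fun k => Pool.Agent.Helper31.EC.h (fc (Setoid.ker (V k)) : FL (l k).T)
      ((l k).v ⊔ (l k).p.map (rpI A k))) := by
  rw [io_eq hV, Lab.upL_cl, cl_le] at h
  have h1 : Tendsto (fun k => (l.ovr e he).rt (fun k => Setoid.ker (V k)) (l.upI e he A).1 k) UF (𝓝 0) := h
  have h2 : Tendsto (fun k => e * (l.ovr e he).rt (fun k => Setoid.ker (V k)) (l.upI e he A).1 k) UF (𝓝 (e * 0)) :=
    Tendsto.const_mul e h1
  rw [mul_zero] at h2
  refine h2.congr fun k => ?_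
  have e1 : (l k).v ⊔ (l k).p.map (rpI A k) = fc ((l k).V ⊓ Setoid.comap (l k).p.π (A.1 k)) := by
    rw [fc_inf]
    rfl
  have e2 : Pool.Agent.Helper31.EC.h (fc (Setoid.ker (V k)) : FL (l k).T)
      (fc ((l k).V ⊓ Setoid.comap (l k).p.π (A.1 k))) =
      (l k).T.e (Setoid.ker (V k)) (((l k).V ⊓ Setoid.comap (l k).p.π (A.1 k)) ⊓ (l k).T.Z) := h_fc _ _
  have e3 : (l.ovr e he).rt (fun k => Setoid.ker (V k)) (l.upI e he A).1 k =
      (l k).T.e (Setoid.ker (V k)) (Setoid.comap (l k).p.π (A.1 k) ⊓ ((l k).V ⊓ (l k).T.Z)) / (e * (l k).T.n) := rfl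
  have e4 : (l k).T.n = (S.F k).n := (l k).hn
  have e5 : Setoid.comap (l k).p.π (A.1 k) ⊓ ((l k).V ⊓ (l k).T.Z) =
      (((l k).V ⊓ Setoid.comap (l k).p.π (A.1 k)) ⊓ (l k).T.Z) := by
    rw [← inf_assoc, inf_comm (Setoid.comap (l k).p.π (A.1 k))]
  have e6 : Pool.Agent.Helper31.EC.h (fc (Setoid.ker (V k)) : FL (l k).T) ((l k).v ⊔ (l k).p.map (rpI A k)) =
      (l k).T.e (Setoid.ker (V k)) (((l k).V ⊓ Setoid.comap (l k).p.π (A.1 k)) ⊓ (l k).T.Z) := by
    rw [e1]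
    exact e2
  show e * (l.ovr e he).rt (fun k => Setoid.ker (V k)) (l.upI e he A).1 k =
    Pool.Agent.Helper31.EC.h (fc (Setoid.ker (V k)) : FL (l k).T) ((l k).v ⊔ (l k).p.map (rpI A k)) / (S.F k).n
  rw [e6, e3, e4, e5, ← mul_div_assoc, mul_div_mul_left _ _ he.ne']

/-! ### literal representatives -/

/-- the level-1 floor of a coordinate -/
def flr {q : ℕ} (y : S.VV q) (i : Fin q) : TR S := ⟨fun k ω => (⌊y.v k ω i / S.dl 1 k⌋ : ℝ) * S.dl 1 k, by
  obtain ⟨K, hK, h⟩ := y.bd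
  refine ⟨fun k => K k + 1, hK.add (S.Sub_const zero_le_one), ?_⟩
  filter_upwards [h] with k a ω hω
  have h1 := a ω hω i
  have hd := S.dl_pos 1 k
  have hd1 : S.dl 1 k ≤ 1 := by
    unfold Sp.dl
    apply Real.rpow_le_one_of_one_le_of_nonpos (by norm_num)
    have := (S.F k).pos
    linarith
  have h3 := Int.floor_le (y.v k ω i / S.dl 1 k)
  have h4 := Int.lt_floor_add_one (y.v k ω i / S.dl 1 k)
  rw [le_div_iff₀ hd] at h3
  rw [div_lt_iff₀ hd] at h4
  rw [abs_le] at h1 ⊢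
  constructor <;> linarith [h1.1, h1.2]⟩

theorem flr_mk {q : ℕ} (y : S.VV q) (i : Fin q) : QS.mk (flr y i) = QS.mk (TR.cor y i) := by
  rw [QS.mk_eq]
  refine ⟨fun _ _ => True, fun _ => 1, Typ_true, S.Sub_const zero_le_one, Eventually.of_forall fun k ω _ _ => ?_⟩
  have hd := S.dl_pos 1 k
  have h3 := Int.floor_le (y.v k ω i / S.dl 1 k)
  have h4 := Int.lt_floor_add_one (y.v k ω i / S.dl 1 k)
  rw [le_div_iff₀ hd] at h3
  rw [div_lt_iff₀ hd] at h4
  show |(⌊y.v k ω i / S.dl 1 k⌋ : ℝ) * S.dl 1 k - y.v k ω i| ≤ 1 * S.dl 1 k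
  rw [abs_le]
  constructor <;> linarith

theorem flr_fn {q : ℕ} (y : S.VV q) (i : Fin q) : QS.mk (TR.cor y i) ∈ Fn (y.cellv 1) := by
  refine ⟨flr y i, fun k ω ω' h _ => ?_, flr_mk y i⟩
  have h2 : ⌊y.v k ω i / S.dl 1 k⌋ = ⌊y.v k ω' i / S.dl 1 k⌋ := congrFun h i
  show (⌊y.v k ω i / S.dl 1 k⌋ : ℝ) * S.dl 1 k = (⌊y.v k ω' i / S.dl 1 k⌋ : ℝ) * S.dl 1 k
  rw [h2]

/-- the functions of the point -/
def pB {k : ℕ} (tr : FTC S 2 k) : Fin 4 → TR S := ![tr.t, tr.a 0 + tr.t * tr.x 0, tr.a 1 + tr.t * tr.x 1, tr.z]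

/-- the functions of the base line -/
def pA {k : ℕ} (tr : FTC S 2 k) : Fin 4 → TR S := ![tr.a 0, tr.a 1, tr.x 0, tr.x 1]

theorem io_vec {q : ℕ} (y : Fin q → TR S) : io ((TR.vec y).cellv 1) = Finset.univ.sup fun i => QS.dg (QS.mk (y i)) 1 := by
  have h1 : io ((TR.vec y).cellv 1) = (TR.vec y).dg 1 := rfl
  rw [h1]
  apply le_antisymm
  · apply TR.vec_dg_le
    intro i
    have h2 := Finset.le_sup (f := fun i => QS.dg (QS.mk (y i)) 1) (Finset.mem_univ i)
    rw [QS.dg_mk _ le_rfl] at h2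
    exact h2
  · refine Finset.sup_le fun i _ => ?_
    rw [QS.dg_mk _ le_rfl]
    exact TR.cor_dg_le (TR.vec y) i 1

variable {k : ℕ}

theorem vec_mem (y : Fin 4 → TR S) (i : Fin 4) : QS.mk (y i) ∈ Fn ((TR.vec y).cellv 1) := flr_fn (TR.vec y) i

/-- the literal variable of the point -/
theorem io_pB (tr : FTC S 2 k) : io ((TR.vec (pB tr)).cellv 1) = vd (Pool.Agent.Helper99.LF.fc tr).fB 1 := by
  rw [io_vec]
  have e1 : ∀ i : Fin 2, QS.mk (tr.a i + tr.t * tr.x i) = (Pool.Agent.Helper99.LF.fc tr).y i := fun i => by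
    rw [map_add, map_mul]
    rfl
  have e2 : QS.mk tr.z = (Pool.Agent.Helper99.LF.fc tr).z := (fc_z tr).symm
  apply le_antisymm
  · refine Finset.sup_le fun i _ => ?_
    fin_cases i
    · exact dg_le_vd (Pool.Agent.Helper99.LF.fc tr).fB 1 (Sum.inl 0)
    · have h1 := dg_le_vd (Pool.Agent.Helper99.LF.fc tr).fB 1 (Sum.inl 1)
      have h2 : (Pool.Agent.Helper99.LF.fc tr).fB (Sum.inl 1) = QS.mk (tr.a 0 + tr.t * tr.x 0) := (e1 0).symm
      rw [h2] at h1
      exact h1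
    · have h1 := dg_le_vd (Pool.Agent.Helper99.LF.fc tr).fB 1 (Sum.inl 2)
      have h2 : (Pool.Agent.Helper99.LF.fc tr).fB (Sum.inl 2) = QS.mk (tr.a 1 + tr.t * tr.x 1) := (e1 1).symm
      rw [h2] at h1
      exact h1
    · have h1 := dg_le_vd (Pool.Agent.Helper99.LF.fc tr).fB 1 (Sum.inr ())
      have h2 : (Pool.Agent.Helper99.LF.fc tr).fB (Sum.inr ()) = QS.mk tr.z := e2.symm
      rw [h2] at h1
      exact h1
  · have h1 : ∀ i : Fin 4, QS.dg (QS.mk (pB tr i)) 1 ≤ Finset.univ.sup fun i => QS.dg (QS.mk (pB tr i)) 1 := fun i =>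
      Finset.le_sup (f := fun i => QS.dg (QS.mk (pB tr i)) 1) (Finset.mem_univ i)
    rw [vd_le]
    rintro (i | i)
    · induction i using Fin.cases with
      | zero => exact h1 0
      | succ i =>
        have h2 : (Pool.Agent.Helper99.LF.fc tr).fB (Sum.inl i.succ) = QS.mk (tr.a i + tr.t * tr.x i) := (e1 i).symm
        rw [h2]
        fin_cases i
        · exact h1 1
        · exact h1 2
    · have h2 : (Pool.Agent.Helper99.LF.fc tr).fB (Sum.inr i) = QS.mk tr.z := e2.symm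
      rw [h2]
      exact h1 3

theorem fB_mem (tr : FTC S 2 k) (i : Fin (2 + 1) ⊕ Unit) :
    (Pool.Agent.Helper99.LF.fc tr).fB i ∈ Fn ((TR.vec (pB tr)).cellv 1) := by
  rcases i with i | i
  · induction i using Fin.cases with
    | zero => exact vec_mem (pB tr) 0
    | succ i =>
      have h2 : (Pool.Agent.Helper99.LF.fc tr).fB (Sum.inl i.succ) = QS.mk (tr.a i + tr.t * tr.x i) := by
        rw [map_add, map_mul]
        rfl
      rw [h2]
      fin_cases i
      · exact vec_mem (pB tr) 1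
      · exact vec_mem (pB tr) 2
  · have h2 : (Pool.Agent.Helper99.LF.fc tr).fB (Sum.inr i) = QS.mk tr.z := fc_z tr
    rw [h2]
    exact vec_mem (pB tr) 3

/-- the literal variable of the base line -/
theorem io_pA (tr : FTC S 2 k) : io ((TR.vec (pA tr)).cellv 1) ≤ (Pool.Agent.Helper99.LF.fc tr).iL := by
  rw [io_vec]
  refine Finset.sup_le fun i _ => ?_
  fin_cases i
  · exact (dg_le_vd (Pool.Agent.Helper99.LF.fc tr).a 1 0).trans le_sup_left
  · exact (dg_le_vd (Pool.Agent.Helper99.LF.fc tr).a 1 1).trans le_sup_left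
  · exact (dg_le_vd (Pool.Agent.Helper99.LF.fc tr).x 1 0).trans le_sup_right
  · exact (dg_le_vd (Pool.Agent.Helper99.LF.fc tr).x 1 1).trans le_sup_right

/-- AGREEMENT over a maximal label -/
theorem agc_tr (s : Sys S m) (c : ℝ) {l : Lab S} (hl : IsKap s c l) (e : ℝ) (he : 0 < e) (tr : FTC (l.ovr e he) 2 k)
    (hA : (Pool.Agent.Helper99.LF.fc tr).iL ≤ l.upL e he (lA s c))
    (hB : vd (Pool.Agent.Helper99.LF.fc tr).fB 1 ≤ l.upL e he (lB s)) :
    AgC (S := l.ovr e he) ((TR.vec (pB tr)).cellv 1) ((TR.vec (pA tr)).cellv 1) := by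
  have h1 : io ((TR.vec (pB tr)).cellv 1) ≤ l.upL e he (cl (Inf.sup (s.IP 1) (s.It 1))) := by
    rw [cl_B, io_pB]
    exact hB
  have h2 : io ((TR.vec (pA tr)).cellv 1) ≤ l.upL e he (cl (Inf.sup (Inf.sup (s.Ia 1) (s.Ix 1)) (s.It c))) := by
    rw [cl_A]
    exact (io_pA tr).trans hA
  have h3 := nul_io e he ((TR.vec (pB tr)).bdd 1) _ h1
  have h4 := nul_io e he ((TR.vec (pA tr)).bdd 1) _ h2
  rw [← cB_eq] at h3
  rw [← cA_eq] at h4
  exact agc_max (B := cB s) hl (cA_Bd s c) (fun E => cA_im_Bd s c l.pj E) e he h3 h4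

/-- **THE FIELD `st` OF `CorH` OVER A MAXIMAL LABEL**, base of dimension two -/
theorem st_kap (s : Sys S m) (c : ℝ) {l : Lab S} (hl : IsKap s c l) (e : ℝ) (he : 0 < e) (tr : FTC (l.ovr e he) 2 k)
    (hA : (Pool.Agent.Helper99.LF.fc tr).iL ≤ l.upL e he (lA s c))
    (hB : vd (Pool.Agent.Helper99.LF.fc tr).fB 1 ≤ l.upL e he (lB s)) {g η : ℝ}
    (rich : RichG (Pool.Agent.Helper99.LF.fc tr).x (vd (Pool.Agent.Helper99.LF.fc tr).fB 1) g)
    (ind : I (Pool.Agent.Helper99.LF.fc tr).iX (vd (Pool.Agent.Helper99.LF.fc tr).fB 1) ⊥ ≤ η)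
    (full : 3 - η ≤ H (Pool.Agent.Helper99.LF.fc tr).iQ) (hg : 0 < g) (hg1 : g ≤ 1) {ε : ℝ} (hε : 0 < ε)
    (hε1 : ε ≤ 1) (hnum : 80 * η ≤ g * ε ^ 2) (N : ℕ) :
    ∃ w : QS.CQ (l.ovr e he) (Pool.Agent.Helper99.LF.fc tr).fB N, ∀ f : Fin (2 + 1) → Fin (N + 1),
      Function.Injective f → Big (Matrix.of fun i j => (w.p (f i)).qs ((Pool.Agent.Helper99.LF.fc tr).v j)).det ε := by
  have hio := io_pB tr
  refine st_two (S := l.ovr e he) (Pool.Agent.Helper99.LF.fc tr) (VB := (TR.vec (pB tr)).cellv 1)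
    (VA := (TR.vec (pA tr)).cellv 1) (g := g) (η := η) ?_ (fB_mem tr) hio.symm hg hg1 hε hε1 hnum N
  exact
    { bB := (TR.vec (pB tr)).bdd 1
      ht := fB_mem tr (Sum.inl 0)
      hy := fun i => fB_mem tr (Sum.inl i.succ)
      ha := fun i => by
        fin_cases i
        · exact vec_mem (pA tr) 0
        · exact vec_mem (pA tr) 1
      hx := fun i => by
        fin_cases i
        · exact vec_mem (pA tr) 2
        · exact vec_mem (pA tr) 3
      ag := agc_tr s c hl e he tr hA hB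
      rich := by
        rw [hio]
        exact rich
      ind := by
        rw [hio]
        exact ind
      full := by
        have h1 : (Pool.Agent.Helper99.LF.fc tr).iQ = dg (Pool.Agent.Helper99.LF.fc tr).t 1 ⊔
            vd (fun i => (Pool.Agent.Helper99.LF.fc tr).a i + (Pool.Agent.Helper99.LF.fc tr).t *
              (Pool.Agent.Helper99.LF.fc tr).x i) 1 := sup_comm _ _
        rw [← h1]
        exact full }

end

end Pool.Agent.Helper24.SA
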